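import Mathlib

set_option autoImplicit false

namespace Pool.Agent.H.MP_cd2797_al
open CategoryTheory CategoryTheory.Limits

theorem union_colim {R ι : Type} [Ring R] [Preorder ι] [IsDirected ι (· ≤ ·)] [Nonempty ι]
    (M : Type) [AddCommGroup M] [Module R M] (N : ι → Submodule R M) (hN : Monotone N)
    (h : ∀ x, ∃ i, x ∈ N i) :
    ∃ (F : ι ⥤ ModuleCat.{0} R) (c : Cocone F), Nonempty (IsColimit c) ∧ c.pt = ModuleCat.of R M ∧
      ∀ i, F.obj i = ModuleCat.of R (N i) := by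
  let F : ι ⥤ ModuleCat.{0} R :=
    { obj := fun i => ModuleCat.of R (N i)
      map := fun f => ModuleCat.ofHom (Submodule.inclusion (hN (leOfHom f))) }
  let c : Cocone F := ⟨ModuleCat.of R M, { app := fun i => ModuleCat.ofHom (N i).subtype }⟩
  refine ⟨F, c, ⟨?_⟩, rfl, fun _ => rfl⟩
  haveI := reflectsColimit_of_reflectsIsomorphisms F (forget (ModuleCat.{0} R))
  apply isColimitOfReflects (forget (ModuleCat.{0} R))
  apply Types.FilteredColimit.isColimitOf'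
  · intro x
    obtain ⟨i, hi⟩ := h x
    exact ⟨i, ⟨x, hi⟩, rfl⟩
  · intro i x y e
    exact ⟨i, 𝟙 i, congrArg _ (Subtype.ext e)⟩

/-- torsion-free, `p`-divisible, of rank at most `p` -/
structure Q (p : ℕ) (M : Type) [AddCommGroup M] : Prop where
  tf : ∀ (n : ℤ) (x : M), n ≠ 0 → n • x = 0 → x = 0
  dv : ∀ x : M, ∃ y : M, (p : ℤ) • y = x
  rk : ∀ v : Fin (p + 1) → M, ∃ a : Fin (p + 1) → ℤ, a ≠ 0 ∧ ∑ i, a i • v i = 0

def Red (p : ℕ) (M : Type) [AddCommGroup M] : Prop :=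
  ∀ q : ℕ, q.Prime → q ≠ p → ∀ x : M, (∀ k : ℕ, ∃ y : M, (q : ℤ) ^ k • y = x) → x = 0

def CC : Set (ModuleCat.{0} ℤ) := {M | ∃ p : ℕ, p.Prime ∧ Q p M ∧ Red p M}

theorem Q.dvk {p : ℕ} {M : Type} [AddCommGroup M] (h : Q p M) (k : ℕ) (x : M) :
    ∃ y : M, (p : ℤ) ^ k • y = x := by
  induction k with
  | zero => exact ⟨x, by simp⟩
  | succ k ih =>
    obtain ⟨y, rfl⟩ := ih
    obtain ⟨z, rfl⟩ := h.dv y
    exact ⟨z, by rw [pow_succ, mul_smul]⟩

theorem Q.retr {p : ℕ} {M N : Type} [AddCommGroup M] [AddCommGroup N]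
    (h : Q p M) (s : N →+ M) (r : M →+ N) (e : ∀ x, r (s x) = x) : Q p N := by
  refine ⟨fun n x hn hx => ?_, fun x => ?_, fun v => ?_⟩
  · rw [← e x, h.tf n (s x) hn (by rw [← map_zsmul, hx, map_zero]), map_zero]
  · obtain ⟨y, hy⟩ := h.dv (s x)
    exact ⟨r y, by rw [← map_zsmul, hy, e]⟩
  · obtain ⟨a, ha, h2⟩ := h.rk (fun i => s (v i))
    refine ⟨a, ha, ?_⟩
    have := congrArg r h2
    simpa [map_sum, e] using this

theorem lim_Q {ι : Type} [Preorder ι] [IsDirected ι (· ≤ ·)] [Nonempty ι]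
    (F : ι ⥤ ModuleCat.{0} ℤ) (c : Cocone F) (hc : IsColimit c) (hF : ∀ i, F.obj i ∈ CC) :
    ∃ p : ℕ, p.Prime ∧ Q p c.pt := by
  classical
  have rep : ∀ x : c.pt, ∃ i y, (c.ι.app i).hom y = x := fun x =>
    Concrete.isColimit_exists_rep F hc x
  have nat : ∀ {i j : ι} (h : i ≤ j) (y : F.obj i),
      (c.ι.app j).hom ((F.map (homOfLE h)).hom y) = (c.ι.app i).hom y := fun h y =>
    ConcreteCategory.congr_hom (c.w (homOfLE h)) y
  have ker : ∀ i (y : F.obj i), (c.ι.app i).hom y = 0 →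
      ∃ (j : ι) (h : i ≤ j), (F.map (homOfLE h)).hom y = 0 := by
    intro i y hy
    obtain ⟨k, f, g, e⟩ := Concrete.isColimit_exists_of_rep_eq F hc y (0 : F.obj i)
      (hy.trans (map_zero (c.ι.app i).hom).symm)
    exact ⟨k, leOfHom f, e.trans (map_zero (F.map g).hom)⟩
  by_cases h0 : ∀ x : c.pt, x = 0
  · exact ⟨2, Nat.prime_two, fun _ x _ _ => h0 x, fun x => ⟨x, (h0 _).trans (h0 x).symm⟩,
      fun v => ⟨1, by simp, h0 _⟩⟩
  push Not at h0
  obtain ⟨x0, hx0⟩ := h0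
  obtain ⟨i0, y0, rfl⟩ := rep x0
  obtain ⟨p, hp, hQ, -⟩ := hF i0
  have hQ' : ∀ j, i0 ≤ j → Q p (F.obj j) := by
    intro j hj
    obtain ⟨q, hq, hQ2, hR⟩ := hF j
    by_cases e : p = q
    · exact e ▸ hQ2
    · exfalso
      apply hx0
      rw [← nat hj, hR p hp e ((F.map (homOfLE hj)).hom y0) (fun k => ?_), map_zero]
      obtain ⟨z, hz⟩ := hQ.dvk k y0
      exact ⟨(F.map (homOfLE hj)).hom z, by rw [← map_zsmul, hz]⟩
  have rep' : ∀ x : c.pt, ∃ i, i0 ≤ i ∧ ∃ y, (c.ι.app i).hom y = x := by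
    intro x
    obtain ⟨i, y, rfl⟩ := rep x
    obtain ⟨k, h1, h2⟩ := directed_of (· ≤ ·) i i0
    exact ⟨k, h2, _, nat h1 y⟩
  refine ⟨p, hp, fun n x hn hx => ?_, fun x => ?_, fun v => ?_⟩
  · obtain ⟨i, hi, y, rfl⟩ := rep' x
    obtain ⟨j, hj, e⟩ := ker i (n • y) (by rw [map_zsmul, hx])
    rw [map_zsmul] at e
    rw [← nat hj, (hQ' j (hi.trans hj)).tf n _ hn e, map_zero]
  · obtain ⟨i, hi, y, rfl⟩ := rep' x
    obtain ⟨z, rfl⟩ := (hQ' i hi).dv y
    exact ⟨(c.ι.app i).hom z, by rw [map_zsmul]⟩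
  · choose i hi y hy using fun t => rep' (v t)
    obtain ⟨k, hk⟩ := Finset.exists_le (Finset.univ.image i)
    have hk' : ∀ t, i t ≤ k := fun t => hk _ (Finset.mem_image_of_mem i (Finset.mem_univ t))
    obtain ⟨a, ha, e⟩ := (hQ' k ((hi 0).trans (hk' 0))).rk
      (fun t => (F.map (homOfLE (hk' t))).hom (y t))
    refine ⟨a, ha, ?_⟩
    have := congrArg (c.ι.app k).hom e
    simpa only [map_sum, map_zsmul, nat, hy, map_zero] using this

def NS (p : ℕ) {M : Type} [AddCommGroup M] (s : Finset M) : Submodule ℤ M where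
  carrier := {x | ∃ k : ℕ, (p : ℤ) ^ k • x ∈ Submodule.span ℤ (s : Set M)}
  add_mem' := by
    rintro x y ⟨a, ha⟩ ⟨b, hb⟩
    refine ⟨a + b, ?_⟩
    rw [smul_add]
    refine add_mem ?_ ?_
    · rw [add_comm, pow_add, mul_smul]
      exact Submodule.smul_mem _ _ ha
    · rw [pow_add, mul_smul]
      exact Submodule.smul_mem _ _ hb
  zero_mem' := ⟨0, by simp⟩
  smul_mem' := by
    rintro c x ⟨a, ha⟩
    refine ⟨a, ?_⟩
    rw [smul_comm]
    exact Submodule.smul_mem _ _ ha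

theorem NS_mem {p : ℕ} (hp : p.Prime) {M : Type} [AddCommGroup M] (h : Q p M)
    (s : Finset M) : Q p (NS p s) ∧ Red p (NS p s) := by
  have hp0 : (p : ℤ) ≠ 0 := by exact_mod_cast hp.ne_zero
  refine ⟨⟨fun n x hn hx => Subtype.ext (h.tf n x hn (congrArg Subtype.val hx)), fun x => ?_,
    fun v => ?_⟩, fun q hq hqp x hx => ?_⟩
  · obtain ⟨y, hy⟩ := h.dv x
    obtain ⟨k, hk⟩ := x.2
    exact ⟨⟨y, k + 1, by rw [pow_succ, mul_smul, hy]; exact hk⟩, Subtype.ext hy⟩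
  · obtain ⟨a, ha, e⟩ := h.rk (fun i => v i)
    exact ⟨a, ha, Subtype.ext (by simpa using e)⟩
  · by_contra hx0
    obtain ⟨a, ha⟩ := x.2
    haveI : Module.IsTorsionFree ℤ M := ⟨fun n hn x y e => by
      have := h.tf n (x - y) hn.ne_zero (by rw [smul_sub]; exact sub_eq_zero.mpr e)
      exact sub_eq_zero.mp this⟩
    haveI : Module.Finite ℤ (Submodule.span ℤ (s : Set M)) := Module.Finite.span_finset ℤ s
    have hne : (⟨_, ha⟩ : Submodule.span ℤ (s : Set M)) ≠ 0 := fun e =>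
      hx0 (Subtype.ext (h.tf _ _ (pow_ne_zero a hp0) (congrArg Subtype.val e)))
    obtain ⟨φ, hφ⟩ := Module.Projective.exists_dual_ne_zero ℤ hne
    have hd : ∀ k : ℕ, (q : ℤ) ^ k ∣ φ ⟨_, ha⟩ := by
      intro k
      obtain ⟨y, hy⟩ := hx k
      obtain ⟨b, hb⟩ := y.2
      have e : (p : ℤ) ^ b • (⟨_, ha⟩ : Submodule.span ℤ (s : Set M)) =
          ((q : ℤ) ^ k * (p : ℤ) ^ a) • ⟨_, hb⟩ := by
        apply Subtype.ext
        have : (x : M) = (q : ℤ) ^ k • (y : M) := (congrArg Subtype.val hy).symm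
        simp only [SetLike.val_smul, this, smul_smul]
        congr 1
        ring
      have e2 := congrArg φ e
      rw [map_smul, map_smul, smul_eq_mul, smul_eq_mul, mul_assoc] at e2
      have cop : IsCoprime ((q : ℤ) ^ k) ((p : ℤ) ^ b) :=
        (Nat.isCoprime_iff_coprime.mpr ((Nat.coprime_primes hq hp).mpr hqp)).pow
      exact cop.dvd_of_dvd_mul_left ⟨_, e2⟩
    have h1 := Int.natAbs_le_of_dvd_ne_zero (hd (φ ⟨_, ha⟩).natAbs) hφ
    rw [Int.natAbs_pow, Int.natAbs_natCast] at h1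
    exact absurd h1 (not_le.mpr (Nat.lt_pow_self hq.one_lt))

theorem Q_lim0 {p : ℕ} (hp : p.Prime) (M : Type) [AddCommGroup M] (h : Q p M) :
    ∃ (F : Finset M ⥤ ModuleCat.{0} ℤ) (c : Cocone F),
      Nonempty (IsColimit c) ∧ c.pt = ModuleCat.of ℤ M ∧ ∀ i, F.obj i ∈ CC := by
  classical
  obtain ⟨F, c, h1, h2, h3⟩ := union_colim (R := ℤ) M (fun s : Finset M => NS p s)
    (fun s t hst x ⟨k, hk⟩ => ⟨k, Submodule.span_mono (Finset.coe_subset.mpr hst) hk⟩)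
    (fun x => ⟨{x}, 0, by simp⟩)
  exact ⟨F, c, h1, h2, fun s => h3 s ▸ ⟨p, hp, NS_mem hp h s⟩⟩

theorem Q_lim {p : ℕ} (hp : p.Prime) (M : ModuleCat.{0} ℤ) (h : Q p M) :
    ∃ (ι : Type) (_ : Preorder ι) (_ : IsDirected ι (· ≤ ·)) (_ : Nonempty ι)
      (F : ι ⥤ ModuleCat.{0} ℤ) (c : Cocone F),
      Nonempty (IsColimit c) ∧ Nonempty (c.pt ≅ M) ∧ ∀ i, F.obj i ∈ CC := by
  classical
  obtain ⟨F, c, h1, h2, h3⟩ := Q_lim0 hp M h
  refine ⟨Finset M, inferInstance, inferInstance, inferInstance, F, c, h1,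
    ⟨eqToIso h2 ≪≫ ?_⟩, h3⟩
  exact @LinearEquiv.toModuleIso ℤ _ M M _ _ (AddCommGroup.toIntModule M) M.isModule
    (@AddEquiv.toIntLinearEquiv M M _ _ (AddCommGroup.toIntModule M) M.isModule (AddEquiv.refl M))

noncomputable def AA (j : ℕ) : Submodule ℤ (ℕ →₀ ℚ) where
  carrier := {f | ∀ i, j ≤ i → f i = 0}
  add_mem' := fun {a b} ha hb i hi => by simp [ha i hi, hb i hi]
  zero_mem' := fun _ _ => rfl
  smul_mem' := fun c x hx i hi => by simp [hx i hi]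

theorem AA_Q (j p : ℕ) (hp : p.Prime) (hj : j ≤ p) : Q p (AA j) := by
  have hp0 : (p : ℚ) ≠ 0 := by exact_mod_cast hp.ne_zero
  refine ⟨fun n x hn hx => (smul_eq_zero.mp hx).resolve_left hn, fun x => ?_, fun v => ?_⟩
  · refine ⟨⟨(p : ℚ)⁻¹ • x.1, fun i hi => by simp [x.2 i hi]⟩, Subtype.ext ?_⟩
    ext i
    simp [hp0]
  · let w : Fin (p + 1) → (Fin j → ℚ) := fun t i => (v t).1 i
    have h1 : ¬ LinearIndependent ℚ w := fun h => by
      have := h.fintype_card_le_finrank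
      simp at this
      omega
    rw [← LinearIndependent.iff_fractionRing ℤ ℚ, Fintype.not_linearIndependent_iff] at h1
    obtain ⟨a, e, t, ht⟩ := h1
    refine ⟨a, fun h => ht (congrFun h t), Subtype.ext ?_⟩
    ext i
    by_cases hi : j ≤ i
    · exact (∑ i, a i • v i).2 i hi
    · have := congrFun e ⟨i, not_le.mp hi⟩
      simpa [w, Finsupp.finset_sum_apply] using this

theorem not_Q (p : ℕ) : ¬ Q p (ℕ →₀ ℚ) := by
  intro h
  obtain ⟨a, ha, e⟩ := h.rk (fun t => Finsupp.single t 1)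
  apply ha
  funext t
  have := DFunLike.congr_fun e (t : ℕ)
  rw [Finsupp.finset_sum_apply, Finset.sum_eq_single t] at this
  · simpa using this
  · intro b _ hb
    have : (b : ℕ) ≠ t := fun h => hb (Fin.ext h)
    simp [Finsupp.single_apply, this]
  · simp

end Pool.Agent.H.MP_cd2797_al
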